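import Pool.Agent.Helper48.Trs.Gen

/-! The instances A, B, E3, E4. -/

namespace Trs.H48

open MvPolynomial Complex

theorem alg_ofReal {x : ℝ} (h : IsAlgebraic ℚ x) : IsAlgebraic ℚ (x : ℂ) :=
  h.algebraMap

theorem alg_of_ofReal {x : ℝ} (h : IsAlgebraic ℚ (x : ℂ)) : IsAlgebraic ℚ x :=
  (isAlgebraic_algebraMap_iff (A := ℂ) Complex.ofReal_injective).1 h

theorem alg_sqrt2 : IsAlgebraic ℚ ((Real.sqrt 2 : ℝ) : ℂ) := by
  apply alg_ofReal
  apply IsAlgebraic.of_pow (n := 2) (by norm_num)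
  rw [Real.sq_sqrt (by norm_num)]
  exact_mod_cast isAlgebraic_natCast (R := ℚ) (A := ℝ) 2

theorem alg_I : IsAlgebraic ℚ Complex.I := by
  apply IsAlgebraic.of_pow (n := 2) (by norm_num)
  rw [Complex.I_sq]
  exact_mod_cast isAlgebraic_intCast (R := ℚ) (A := ℂ) (-1)

theorem exp_mul_log_pi (x : ℝ) : Complex.exp ((x : ℂ) * (Real.log Real.pi : ℝ)) =
    ((Real.pi ^ x : ℝ) : ℂ) := by
  rw [Real.rpow_def_of_pos Real.pi_pos]
  push_cast
  ring_nf

theorem exp_I_pi : Complex.exp (Complex.I * (Real.pi : ℝ)) = -1 := by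
  rw [mul_comm]
  exact Complex.exp_pi_mul_I

theorem log_pi_pos : 0 < Real.log Real.pi :=
  Real.log_pos (by linarith [Real.pi_gt_three])

/-- `π` is transcendental -/
theorem pi_tr (hHL : S_HL) : ¬ IsAlgebraic ℚ Real.pi := by
  intro h
  refine hHL (Complex.I * (Real.pi : ℝ)) (alg_I.mul (alg_ofReal h)) ?_ ?_
  · simp [Real.pi_ne_zero]
  · rw [exp_I_pi]
    exact_mod_cast isAlgebraic_intCast (R := ℚ) (A := ℂ) (-1)

/-- `e` is transcendental -/
theorem e_tr (hHL : S_HL) : ¬ IsAlgebraic ℚ (Real.exp 1) := by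
  intro h
  refine hHL 1 isAlgebraic_one one_ne_zero ?_
  have := alg_ofReal h
  rwa [Complex.ofReal_exp, Complex.ofReal_one] at this

/-- a transcendental number is not a rational multiple of `√2` -/
theorem indep_sqrt2 {x : ℝ} (hx : ¬ IsAlgebraic ℚ x) (a b : ℤ)
    (h : (a : ℝ) * Real.sqrt 2 + b * x = 0) : a = 0 ∧ b = 0 := by
  have hb : b = 0 := by
    by_contra hb
    apply hx
    have hb' : (b : ℝ) ≠ 0 := by exact_mod_cast hb
    have e : x = -(a : ℝ) * (b : ℝ)⁻¹ * Real.sqrt 2 := by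
      field_simp
      linarith
    rw [e]
    exact (((isAlgebraic_intCast (R := ℚ) (A := ℝ) a).neg).mul
      (isAlgebraic_intCast (R := ℚ) (A := ℝ) b).inv).mul (alg_of_ofReal alg_sqrt2)
  subst hb
  have h2 : Real.sqrt 2 ≠ 0 := by positivity
  simpa [h2] using h

theorem final4 (hM : S_Main) (hS : S_ShAB) (γ : Fin 4 → Fin 4 → ℂ) (φ : Fin 4 → ℂ) (c1 c2 : ℂ)
    (hφ : φ 2 ≠ 0) (h1 : ∀ k, ∑ i, φ i * γ k i = 0) (h2 : φ 0 = φ 1)
    (h3 : φ 2 * c1 + φ 3 * c2 = 0) (ha0 : ∀ k, IsAlgebraic ℚ (γ k 0))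
    (ha1 : ∀ k, IsAlgebraic ℚ (Complex.exp (γ k 1))) (ha2 : ∀ k, IsAlgebraic ℚ (Complex.exp (γ k 2)))
    (ha3 : ∀ k, IsAlgebraic ℚ (Complex.exp (γ k 3))) (hc1 : IsAlgebraic ℚ c1)
    (hc2 : IsAlgebraic ℚ c2) (hc : ∀ a b : ℤ, c1 * a + c2 * b = 0 → a = 0 ∧ b = 0)
    (g01 : γ 0 1 = 0) (g11 : γ 1 1 = 0) (g20 : γ 2 0 = 0) (g30 : γ 3 0 = 0) (g23 : γ 2 3 = 0)
    (g32 : γ 3 2 = 0) (hα : ∀ g h : ℤ, g * γ 0 0 + h * γ 1 0 = 0 → g = 0 ∧ h = 0)
    (hr2 : (γ 2 2).re ≠ 0) (hr3 : (γ 3 3).re ≠ 0) (hr : (γ 2 1).re ≠ 0 ∨ (γ 3 1).re ≠ 0)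
    (hbad : ∀ g g' : Fin 4 → ℤ, g ≠ 0 → g 2 = 0 → g 3 = 0 → g' ≠ 0 → g' 0 = 0 → g' 1 = 0 →
      ¬ Bad (gp γ g) (gp γ g')) : False := by
  refine hM 4 4 ![false, true, true, true] γ ![1, -1, 0, 0] ![0, 0, c1, c2] φ ?_ h1 ?_ ?_ ?_ ?_ ?_
    60 59 41 17 58 (by norm_num) (by norm_num) (by norm_num) (by decide)
    (hS γ c1 c2 hc g01 g11 g20 g30 g23 g32 hα hr2 hr3 hr hbad)
  · intro h
    exact hφ (by rw [h]; rfl)
  · simp [Fin.sum_univ_four, h2]
  · simpa [Fin.sum_univ_four] using h3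
  · intro k i
    fin_cases i
    · exact ha0 k
    · exact ha1 k
    · exact ha2 k
    · exact ha3 k
  · intro i
    fin_cases i
    · exact isAlgebraic_one
    · exact isAlgebraic_one.neg
    · exact isAlgebraic_zero
    · exact isAlgebraic_zero
  · intro i
    fin_cases i
    · exact isAlgebraic_zero
    · exact isAlgebraic_zero
    · exact hc1
    · exact hc2

theorem alg_exp_zero : IsAlgebraic ℚ (Complex.exp 0) := by
  rw [Complex.exp_zero]; exact isAlgebraic_one

/-- vectors supported on two coordinates are nonzero -/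
theorem ne_zero_lo {g : Fin 4 → ℤ} (h : g ≠ 0) (h2 : g 2 = 0) (h3 : g 3 = 0)
    (h0 : g 0 = 0) (h1 : g 1 = 0) : False := by
  apply h
  funext i
  fin_cases i <;> simp [h0, h1, h2, h3]

theorem re_gp (γ : Fin 4 → Fin 4 → ℂ) (g : Fin 4 → ℤ) (i : Fin 4) :
    (gp γ g i).re = g 0 * (γ 0 i).re + g 1 * (γ 1 i).re + g 2 * (γ 2 i).re + g 3 * (γ 3 i).re := by
  rw [gp_apply, Fin.sum_univ_four]
  simp

theorem dataA (hM : S_Main) (hS : S_ShAB) : S_A := by
  by_contra hcon
  simp only [S_A, SomeT, Transcendental, not_exists, not_and, not_not] at hcon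
  have a4 : IsAlgebraic ℚ (nine 4) := hcon 4 (by decide)
  have a5 : IsAlgebraic ℚ (nine 5) := hcon 5 (by decide)
  have a6 : IsAlgebraic ℚ (nine 6) := hcon 6 (by decide)
  have a7 : IsAlgebraic ℚ (nine 7) := hcon 7 (by decide)
  have b4 : IsAlgebraic ℚ (Complex.exp ((Real.pi : ℝ) * (Real.log Real.pi : ℝ))) := by
    rw [exp_mul_log_pi]; exact alg_ofReal a4
  have b5 : IsAlgebraic ℚ (Complex.exp (Real.exp 1 : ℝ)) := by
    rw [← Complex.ofReal_exp, ← Real.exp_one_rpow]; exact alg_ofReal a5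
  have b6 : IsAlgebraic ℚ (Complex.exp ((Real.exp 1 : ℝ) * (Real.log Real.pi : ℝ))) := by
    rw [exp_mul_log_pi]; exact alg_ofReal a6
  have b7 : IsAlgebraic ℚ (Complex.exp ((Real.sqrt 2 : ℝ) * (Real.log Real.pi : ℝ))) := by
    rw [exp_mul_log_pi]; exact alg_ofReal a7
  have bI : IsAlgebraic ℚ (Complex.exp (Complex.I * (Real.pi : ℝ))) := by
    rw [exp_I_pi]; exact isAlgebraic_one.neg
  have hL := log_pi_pos
  have hs : Real.sqrt 2 ≠ 0 := by positivity
  have hE : Real.exp 1 ≠ 0 := (Real.exp_pos 1).ne'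
  have hP := Real.pi_ne_zero
  set L : ℝ := Real.log Real.pi
  set s : ℝ := Real.sqrt 2
  set E : ℝ := Real.exp 1
  set P : ℝ := Real.pi
  let γ : Fin 4 → Fin 4 → ℂ := ![![(s : ℂ), 0, s * L, 0], ![I * s, 0, 0, s * L],
    ![0, E, E * L, 0], ![0, I * P, 0, P * L]]
  refine final4 hM hS γ ![-L, -L, 1, I] (-I) 1 (by simp) ?_ (by simp) (by simp) ?_ ?_ ?_ ?_
    alg_I.neg isAlgebraic_one ?_ rfl rfl rfl rfl rfl rfl ?_ ?_ ?_ ?_ ?_
  · intro k
    fin_cases k <;> simp [γ, Fin.sum_univ_four] <;> ring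
  · intro k
    fin_cases k
    · exact alg_sqrt2
    · exact alg_I.mul alg_sqrt2
    · exact isAlgebraic_zero
    · exact isAlgebraic_zero
  · intro k
    fin_cases k
    · exact alg_exp_zero
    · exact alg_exp_zero
    · exact b5
    · exact bI
  · intro k
    fin_cases k
    · exact b7
    · exact alg_exp_zero
    · exact b6
    · exact alg_exp_zero
  · intro k
    fin_cases k
    · exact alg_exp_zero
    · exact b7
    · exact alg_exp_zero
    · exact b4
  · intro a b h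
    have h1 := congrArg Complex.re h
    have h2 := congrArg Complex.im h
    simp at h1 h2
    exact ⟨h2, h1⟩
  · intro a b h
    have h1 := congrArg Complex.re h
    have h2 := congrArg Complex.im h
    simp [γ, hs] at h1 h2
    exact ⟨h1, h2⟩
  · simp [γ, hE, hL.ne']
  · simp [γ, hP, hL.ne']
  · left
    simp [γ, hE]
  · intro g g' hg g2 g3 hg' g0' g1' hb
    have r1 : (gp γ g 1).re = 0 := by rw [re_gp]; simp [γ, g2, g3]
    have r2 : (gp γ g 2).re = g 0 * (s * L) := by rw [re_gp]; simp [γ, g2, g3]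
    have r3 : (gp γ g 3).re = g 1 * (s * L) := by rw [re_gp]; simp [γ, g2, g3]
    have r1' : (gp γ g' 1).re = g' 2 * E := by rw [re_gp]; simp [γ, g0', g1']
    have r2' : (gp γ g' 2).re = g' 2 * (E * L) := by rw [re_gp]; simp [γ, g0', g1']
    have r3' : (gp γ g' 3).re = g' 3 * (P * L) := by rw [re_gp]; simp [γ, g0', g1']
    have key0 : Rel (gp γ g) (gp γ g') 1 2 → g 0 = 0 := by
      rintro ⟨a, b, ha, hb, h1, -⟩
      rw [r1, r2] at h1
      simpa [hb, hs, hL.ne'] using h1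
    have key1 : Rel (gp γ g) (gp γ g') 1 3 → g 1 = 0 := by
      rintro ⟨a, b, ha, hb, h1, -⟩
      rw [r1, r3] at h1
      simpa [hb, hs, hL.ne'] using h1
    have k0 : Van (gp γ g) (gp γ g') 2 → g 0 = 0 := by
      rintro ⟨h1, -⟩
      rw [r2] at h1
      simpa [hs, hL.ne'] using h1
    have k1 : Van (gp γ g) (gp γ g') 3 → g 1 = 0 := by
      rintro ⟨h1, -⟩
      rw [r3] at h1
      simpa [hs, hL.ne'] using h1
    rcases hb with ⟨h, h'⟩ | ⟨h, h'⟩ | ⟨h, h'⟩ | ⟨h, h'⟩ | ⟨h, h'⟩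
    · exact ne_zero_lo hg g2 g3 (key0 h) (key1 h')
    · have e2 : g' 2 = 0 := by
        have := h.2
        rw [r1'] at this
        simpa [hE] using this
      obtain ⟨a, b, ha, hb, -, h2⟩ := h'
      rw [r2', r3', e2] at h2
      have e3 : g' 3 = 0 := by simpa [hb, hP, hL.ne'] using h2
      exact ne_zero_lo hg' e2 e3 g0' g1'
    · exact ne_zero_lo hg g2 g3 (k0 h) (key1 h')
    · exact ne_zero_lo hg g2 g3 (key0 h') (k1 h)
    · exact ne_zero_lo hg g2 g3 (k0 h) (k1 h')

theorem ne_zero_hi {g : Fin 4 → ℤ} (h : g ≠ 0) (h0 : g 0 = 0) (h1 : g 1 = 0)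
    (h2 : g 2 = 0) (h3 : g 3 = 0) : False :=
  ne_zero_lo h h2 h3 h0 h1

theorem algI_pi : IsAlgebraic ℚ (Complex.exp (Complex.I * (Real.pi : ℝ))) := by
  rw [exp_I_pi]; exact isAlgebraic_one.neg

theorem dataB (hM : S_Main) (hS : S_ShAB) (hHL : S_HL) : S_B := by
  by_contra hcon
  simp only [S_B, SomeT, Transcendental, not_exists, not_and, not_not] at hcon
  have a4 : IsAlgebraic ℚ (nine 4) := hcon 4 (by decide)
  have a7 : IsAlgebraic ℚ (nine 7) := hcon 7 (by decide)
  have a8 : IsAlgebraic ℚ (nine 8) := hcon 8 (by decide)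
  have b4 : IsAlgebraic ℚ (Complex.exp ((Real.pi : ℝ) * (Real.log Real.pi : ℝ))) := by
    rw [exp_mul_log_pi]; exact alg_ofReal a4
  have b7 : IsAlgebraic ℚ (Complex.exp ((Real.sqrt 2 : ℝ) * (Real.log Real.pi : ℝ))) := by
    rw [exp_mul_log_pi]; exact alg_ofReal a7
  have b8 : IsAlgebraic ℚ (Complex.exp ((Real.pi : ℝ) ^ 2)) := by
    rw [← Complex.ofReal_pow, ← Complex.ofReal_exp, ← Real.exp_one_rpow]; exact alg_ofReal a8
  have bI := algI_pi
  have hind := fun a b => indep_sqrt2 (pi_tr hHL) a b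
  have hL := log_pi_pos
  have hs : Real.sqrt 2 ≠ 0 := by positivity
  have hs2 : Real.sqrt 2 * Real.sqrt 2 = 2 := Real.mul_self_sqrt (by norm_num)
  have hP := Real.pi_ne_zero
  have as := alg_sqrt2
  set L : ℝ := Real.log Real.pi
  set s : ℝ := Real.sqrt 2
  set P : ℝ := Real.pi
  let γ : Fin 4 → Fin 4 → ℂ := ![![-1, 0, I * P, 0], ![I * s, 0, 0, I * P],
    ![0, I * P, (P : ℂ) ^ 2, 0], ![0, s * L, 0, P * L]]
  have hI2 : I * I = -1 := Complex.I_mul_I
  have hP2 : ((P : ℂ) ^ 2).re = P ^ 2 := by rw [← Complex.ofReal_pow]; rfl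
  refine final4 hM hS γ ![-P, -P, I, s] s (-I) (by simp) ?_ (by simp) (by simp; ring) ?_ ?_ ?_ ?_
    as alg_I.neg ?_ rfl rfl rfl rfl rfl rfl ?_ ?_ ?_ ?_ ?_
  · intro k
    fin_cases k <;> simp [γ, Fin.sum_univ_four] <;>
      first | ring1 | linear_combination (P : ℂ) * hI2
  · intro k
    fin_cases k
    · exact isAlgebraic_one.neg
    · exact alg_I.mul as
    · exact isAlgebraic_zero
    · exact isAlgebraic_zero
  · intro k
    fin_cases k
    · exact alg_exp_zero
    · exact alg_exp_zero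
    · exact bI
    · exact b7
  · intro k
    fin_cases k
    · exact bI
    · exact alg_exp_zero
    · exact b8
    · exact alg_exp_zero
  · intro k
    fin_cases k
    · exact alg_exp_zero
    · exact bI
    · exact alg_exp_zero
    · exact b4
  · intro a b h
    have h1 := congrArg Complex.re h
    have h2 := congrArg Complex.im h
    simp [hs] at h1 h2
    exact ⟨h1, h2⟩
  · intro a b h
    have h1 := congrArg Complex.re h
    have h2 := congrArg Complex.im h
    simp [γ, hs] at h1 h2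
    exact ⟨h1, h2⟩
  · simp [γ, hP, hP2]
  · simp [γ, hP, hL.ne']
  · right
    simp [γ, hs, hL.ne']
  · intro g g' hg g2 g3 hg' g0' g1' hb
    have r1' : (gp γ g' 1).re = g' 3 * (s * L) := by rw [re_gp]; simp [γ, g0', g1']
    have r2' : (gp γ g' 2).re = g' 2 * P ^ 2 := by
      rw [re_gp]; simp [γ, g0', g1', hP2]
    have r3' : (gp γ g' 3).re = g' 3 * (P * L) := by rw [re_gp]; simp [γ, g0', g1']
    have k13 : Rel (gp γ g) (gp γ g') 1 3 → g' 3 = 0 := by
      rintro ⟨a, b, ha, hb, -, h1⟩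
      rw [r1', r3'] at h1
      by_contra hne
      have h3 : ((a * g' 3 : ℤ) : ℝ) * s + ((b * g' 3 : ℤ) : ℝ) * P = 0 := by
        have : L * (((a * g' 3 : ℤ) : ℝ) * s + ((b * g' 3 : ℤ) : ℝ) * P) = 0 := by
          push_cast; linarith
        exact (mul_eq_zero.1 this).resolve_left hL.ne'
      have := (hind _ _ h3).1
      simp [ha, hne] at this
    have k12 : Rel (gp γ g) (gp γ g') 1 2 → g' 3 = 0 → g' 2 = 0 := by
      rintro ⟨a, b, ha, hb, -, h1⟩ h3
      rw [r1', r2', h3] at h1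
      simpa [hb, hP] using h1
    have v1 : Van (gp γ g) (gp γ g') 1 → g' 3 = 0 := by
      rintro ⟨-, h1⟩
      rw [r1'] at h1
      simpa [hs, hL.ne'] using h1
    have v2 : Van (gp γ g) (gp γ g') 2 → g' 2 = 0 := by
      rintro ⟨-, h1⟩
      rw [r2'] at h1
      simpa [hP] using h1
    have v3 : Van (gp γ g) (gp γ g') 3 → g' 3 = 0 := by
      rintro ⟨-, h1⟩
      rw [r3'] at h1
      simpa [hP, hL.ne'] using h1
    rcases hb with ⟨h, h'⟩ | ⟨h, h'⟩ | ⟨h, h'⟩ | ⟨h, h'⟩ | ⟨h, h'⟩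
    · have e3 := k13 h'
      exact ne_zero_hi hg' g0' g1' (k12 h e3) e3
    · have e3 := v1 h
      obtain ⟨a, b, ha, hb, -, h2⟩ := h'
      rw [r2', r3', e3] at h2
      have e2 : g' 2 = 0 := by simpa [ha, hP] using h2
      exact ne_zero_hi hg' g0' g1' e2 e3
    · exact ne_zero_hi hg' g0' g1' (v2 h) (k13 h')
    · exact ne_zero_hi hg' g0' g1' (k12 h' (v3 h)) (v3 h)
    · exact ne_zero_hi hg' g0' g1' (v2 h) (v3 h')

theorem dataE4 (hM : S_Main) (hS : S_ShAB) (hHL : S_HL) : S_E4 := by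
  by_contra hcon
  simp only [S_E4, SomeT, Transcendental, not_exists, not_and, not_not] at hcon
  have a2 : IsAlgebraic ℚ (nine 2) := hcon 2 (by decide)
  have a6 : IsAlgebraic ℚ (nine 6) := hcon 6 (by decide)
  have a7 : IsAlgebraic ℚ (nine 7) := hcon 7 (by decide)
  have a8 : IsAlgebraic ℚ (nine 8) := hcon 8 (by decide)
  have as := alg_sqrt2
  have b2 : IsAlgebraic ℚ (((Real.pi : ℝ) : ℂ) * (Real.exp 1 : ℝ) / (Real.sqrt 2 : ℝ)) := by
    have := alg_ofReal a2
    rw [show nine 2 = Real.pi * Real.exp 1 from rfl] at this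
    rw [div_eq_mul_inv, ← Complex.ofReal_mul]
    exact this.mul as.inv
  have b6 : IsAlgebraic ℚ (Complex.exp ((Real.exp 1 : ℝ) * (Real.log Real.pi : ℝ))) := by
    rw [exp_mul_log_pi]; exact alg_ofReal a6
  have b7 : IsAlgebraic ℚ (Complex.exp ((Real.sqrt 2 : ℝ) * (Real.log Real.pi : ℝ))) := by
    rw [exp_mul_log_pi]; exact alg_ofReal a7
  have b8 : IsAlgebraic ℚ (Complex.exp ((Real.pi : ℝ) ^ 2)) := by
    rw [← Complex.ofReal_pow, ← Complex.ofReal_exp, ← Real.exp_one_rpow]; exact alg_ofReal a8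
  have bI := algI_pi
  have hind := fun a b => indep_sqrt2 (e_tr hHL) a b
  have hL := log_pi_pos
  have hs : Real.sqrt 2 ≠ 0 := by positivity
  have hP := Real.pi_ne_zero
  have hE : Real.exp 1 ≠ 0 := (Real.exp_pos 1).ne'
  set L : ℝ := Real.log Real.pi
  set s : ℝ := Real.sqrt 2
  set E : ℝ := Real.exp 1
  set P : ℝ := Real.pi
  have hsC : (s : ℂ) ≠ 0 := by exact_mod_cast hs
  let γ : Fin 4 → Fin 4 → ℂ := ![![-1, 0, I * P, 0], ![I * (P * E / s), 0, 0, I * P],
    ![0, I * P, (P : ℂ) ^ 2, 0], ![0, E * L, 0, s * L]]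
  have hI2 : I * I = -1 := Complex.I_mul_I
  have hP2 : ((P : ℂ) ^ 2).re = P ^ 2 := by rw [← Complex.ofReal_pow]; rfl
  have hre : ((P : ℂ) * E / s).re = P * E / s := by
    rw [← Complex.ofReal_mul, ← Complex.ofReal_div]; rfl
  have him : ((P : ℂ) * E / s).im = 0 := by
    rw [← Complex.ofReal_mul, ← Complex.ofReal_div]; rfl
  refine final4 hM hS γ ![-P, -P, I, P * E / s] (P * E / s) (-I) (by simp) ?_ (by simp)
    (by simp; ring) ?_ ?_ ?_ ?_ b2 alg_I.neg ?_ rfl rfl rfl rfl rfl rfl ?_ ?_ ?_ ?_ ?_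
  · intro k
    fin_cases k <;> simp [γ, Fin.sum_univ_four] <;>
      first | ring1 | linear_combination (P : ℂ) * hI2 | (field_simp; ring1)
  · intro k
    fin_cases k
    · exact isAlgebraic_one.neg
    · exact alg_I.mul b2
    · exact isAlgebraic_zero
    · exact isAlgebraic_zero
  · intro k
    fin_cases k
    · exact alg_exp_zero
    · exact alg_exp_zero
    · exact bI
    · exact b6
  · intro k
    fin_cases k
    · exact bI
    · exact alg_exp_zero
    · exact b8
    · exact alg_exp_zero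
  · intro k
    fin_cases k
    · exact alg_exp_zero
    · exact bI
    · exact alg_exp_zero
    · exact b7
  · intro a b h
    have h1 := congrArg Complex.re h
    have h2 := congrArg Complex.im h
    simp [hs, hre, him, hP, hE] at h1 h2
    exact ⟨h1, h2⟩
  · intro a b h
    have h1 := congrArg Complex.re h
    have h2 := congrArg Complex.im h
    simp [γ, hs, hre, him, hP, hE] at h1 h2
    exact ⟨h1, h2⟩
  · simp [γ, hP, hP2]
  · simp [γ, hs, hL.ne']
  · right
    simp [γ, hE, hL.ne']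
  · intro g g' hg g2 g3 hg' g0' g1' hb
    have r1' : (gp γ g' 1).re = g' 3 * (E * L) := by rw [re_gp]; simp [γ, g0', g1']
    have r2' : (gp γ g' 2).re = g' 2 * P ^ 2 := by
      rw [re_gp]; simp [γ, g0', g1', hP2]
    have r3' : (gp γ g' 3).re = g' 3 * (s * L) := by rw [re_gp]; simp [γ, g0', g1']
    have k13 : Rel (gp γ g) (gp γ g') 1 3 → g' 3 = 0 := by
      rintro ⟨a, b, ha, hb, -, h1⟩
      rw [r1', r3'] at h1
      by_contra hne
      have h3 : ((b * g' 3 : ℤ) : ℝ) * s + ((a * g' 3 : ℤ) : ℝ) * E = 0 := by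
        have : L * (((b * g' 3 : ℤ) : ℝ) * s + ((a * g' 3 : ℤ) : ℝ) * E) = 0 := by
          push_cast; linarith
        exact (mul_eq_zero.1 this).resolve_left hL.ne'
      have := (hind _ _ h3).1
      simp [hb, hne] at this
    have k12 : Rel (gp γ g) (gp γ g') 1 2 → g' 3 = 0 → g' 2 = 0 := by
      rintro ⟨a, b, ha, hb, -, h1⟩ h3
      rw [r1', r2', h3] at h1
      simpa [hb, hP] using h1
    have v1 : Van (gp γ g) (gp γ g') 1 → g' 3 = 0 := by
      rintro ⟨-, h1⟩
      rw [r1'] at h1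
      simpa [hE, hL.ne'] using h1
    have v2 : Van (gp γ g) (gp γ g') 2 → g' 2 = 0 := by
      rintro ⟨-, h1⟩
      rw [r2'] at h1
      simpa [hP] using h1
    have v3 : Van (gp γ g) (gp γ g') 3 → g' 3 = 0 := by
      rintro ⟨-, h1⟩
      rw [r3'] at h1
      simpa [hs, hL.ne'] using h1
    rcases hb with ⟨h, h'⟩ | ⟨h, h'⟩ | ⟨h, h'⟩ | ⟨h, h'⟩ | ⟨h, h'⟩
    · have e3 := k13 h'
      exact ne_zero_hi hg' g0' g1' (k12 h e3) e3
    · have e3 := v1 h
      obtain ⟨a, b, ha, hb, -, h2⟩ := h'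
      rw [r2', r3', e3] at h2
      have e2 : g' 2 = 0 := by simpa [ha, hP] using h2
      exact ne_zero_hi hg' g0' g1' e2 e3
    · exact ne_zero_hi hg' g0' g1' (v2 h) (k13 h')
    · exact ne_zero_hi hg' g0' g1' (k12 h' (v3 h)) (v3 h)
    · exact ne_zero_hi hg' g0' g1' (v2 h) (v3 h')

theorem dataE3 (hM : S_Main) (hS : S_ShAB) (hF : S_ShF) (hHL : S_HL) : S_E3 := by
  by_contra hcon
  simp only [S_E3, SomeT, Transcendental, not_exists, not_and, not_not] at hcon
  have a2 : IsAlgebraic ℚ (nine 2) := hcon 2 (by decide)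
  have a4 : IsAlgebraic ℚ (nine 4) := hcon 4 (by decide)
  have a6 : IsAlgebraic ℚ (nine 6) := hcon 6 (by decide)
  have a7 : IsAlgebraic ℚ (nine 7) := hcon 7 (by decide)
  have as := alg_sqrt2
  have b2 : IsAlgebraic ℚ (((Real.pi : ℝ) : ℂ) * (Real.exp 1 : ℝ) / (Real.sqrt 2 : ℝ)) := by
    have := alg_ofReal a2
    rw [show nine 2 = Real.pi * Real.exp 1 from rfl] at this
    rw [div_eq_mul_inv, ← Complex.ofReal_mul]
    exact this.mul as.inv
  have b4 : IsAlgebraic ℚ (Complex.exp ((Real.pi : ℝ) * (Real.log Real.pi : ℝ))) := by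
    rw [exp_mul_log_pi]; exact alg_ofReal a4
  have b6 : IsAlgebraic ℚ (Complex.exp ((Real.exp 1 : ℝ) * (Real.log Real.pi : ℝ))) := by
    rw [exp_mul_log_pi]; exact alg_ofReal a6
  have b7 : IsAlgebraic ℚ (Complex.exp ((Real.sqrt 2 : ℝ) * (Real.log Real.pi : ℝ))) := by
    rw [exp_mul_log_pi]; exact alg_ofReal a7
  have bI := algI_pi
  have hinde := fun a b => indep_sqrt2 (e_tr hHL) a b
  have hindp := fun a b => indep_sqrt2 (pi_tr hHL) a b
  have hL := log_pi_pos
  have hs : Real.sqrt 2 ≠ 0 := by positivity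
  have hs2 : Real.sqrt 2 * Real.sqrt 2 = 2 := Real.mul_self_sqrt (by norm_num)
  have hP := Real.pi_ne_zero
  have hE : Real.exp 1 ≠ 0 := (Real.exp_pos 1).ne'
  set L : ℝ := Real.log Real.pi
  set s : ℝ := Real.sqrt 2
  set E : ℝ := Real.exp 1
  set P : ℝ := Real.pi
  have hsC : (s : ℂ) ≠ 0 := by exact_mod_cast hs
  have hs2C : (s : ℂ) * s = 2 := by exact_mod_cast hs2
  have hI2 : I * I = -1 := Complex.I_mul_I
  have hre : ((P : ℂ) * E / s).re = P * E / s := by
    rw [← Complex.ofReal_mul, ← Complex.ofReal_div]; rfl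
  have him : ((P : ℂ) * E / s).im = 0 := by
    rw [← Complex.ofReal_mul, ← Complex.ofReal_div]; rfl
  by_cases hirr : ∀ a b : ℤ, (a : ℝ) * (P * E) + 2 * b = 0 → a = 0 ∧ b = 0
  · let γ : Fin 4 → Fin 4 → ℂ := ![![I * s, 0, I * P, 0], ![I * (P * E / s), 0, 0, I * P],
      ![0, s * L, P * L, 0], ![0, E * L, 0, s * L]]
    refine final4 hM hS γ ![-P, -P, s, P * E / s] (P * E / s) (-s) (by simp [hs]) ?_ (by simp)
      (by simp; ring) ?_ ?_ ?_ ?_ b2 as.neg ?_ rfl rfl rfl rfl rfl rfl ?_ ?_ ?_ ?_ ?_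
    · intro k
      fin_cases k <;> simp [γ, Fin.sum_univ_four] <;>
        first | ring1 | (field_simp; ring1)
    · intro k
      fin_cases k
      · exact alg_I.mul as
      · exact alg_I.mul b2
      · exact isAlgebraic_zero
      · exact isAlgebraic_zero
    · intro k
      fin_cases k
      · exact alg_exp_zero
      · exact alg_exp_zero
      · exact b7
      · exact b6
    · intro k
      fin_cases k
      · exact bI
      · exact alg_exp_zero
      · exact b4
      · exact alg_exp_zero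
    · intro k
      fin_cases k
      · exact alg_exp_zero
      · exact bI
      · exact alg_exp_zero
      · exact b7
    · intro a b h
      have h1 := congrArg Complex.re h
      simp [hre, him] at h1
      have h3 : (a : ℝ) * (P * E) + 2 * ((-b : ℤ) : ℝ) = 0 := by
        field_simp at h1
        push_cast
        linear_combination h1 + b * hs2
      have := hirr _ _ h3
      exact ⟨this.1, by simpa using this.2⟩
    · intro a b h
      have h2 := congrArg Complex.im h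
      simp [γ, hre, him] at h2
      have h3 : (b : ℝ) * (P * E) + 2 * ((a : ℤ) : ℝ) = 0 := by
        field_simp at h2
        linear_combination h2 - a * hs2
      have := hirr _ _ h3
      exact ⟨this.2, this.1⟩
    · simp [γ, hP, hL.ne']
    · simp [γ, hs, hL.ne']
    · left
      simp [γ, hs, hL.ne']
    · intro g g' hg g2 g3 hg' g0' g1' hb
      have r1' : (gp γ g' 1).re = g' 2 * (s * L) + g' 3 * (E * L) := by
        rw [re_gp]; simp [γ, g0', g1']
      have r2' : (gp γ g' 2).re = g' 2 * (P * L) := by rw [re_gp]; simp [γ, g0', g1']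
      have r3' : (gp γ g' 3).re = g' 3 * (s * L) := by rw [re_gp]; simp [γ, g0', g1']
      have k13 : Rel (gp γ g) (gp γ g') 1 3 → g' 3 = 0 := by
        rintro ⟨a, b, ha, hb, -, h1⟩
        rw [r1', r3'] at h1
        have h3 : ((a * g' 2 + b * g' 3 : ℤ) : ℝ) * s + ((a * g' 3 : ℤ) : ℝ) * E = 0 := by
          have : L * (((a * g' 2 + b * g' 3 : ℤ) : ℝ) * s + ((a * g' 3 : ℤ) : ℝ) * E) = 0 := by
            push_cast; linarith
          exact (mul_eq_zero.1 this).resolve_left hL.ne'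
        have := (hinde _ _ h3).2
        simpa [ha] using this
      have k13' : Rel (gp γ g) (gp γ g') 1 3 → g' 2 = 0 := by
        intro h
        have e3 := k13 h
        obtain ⟨a, b, ha, hb, -, h1⟩ := h
        rw [r1', r3', e3] at h1
        simpa [ha, hs, hL.ne'] using h1
      have k12 : Rel (gp γ g) (gp γ g') 1 2 → g' 3 = 0 → g' 2 = 0 := by
        rintro ⟨a, b, ha, hb, -, h1⟩ h3
        rw [r1', r2', h3] at h1
        have h4 : ((a * g' 2 : ℤ) : ℝ) * s + ((b * g' 2 : ℤ) : ℝ) * P = 0 := by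
          have : L * (((a * g' 2 : ℤ) : ℝ) * s + ((b * g' 2 : ℤ) : ℝ) * P) = 0 := by
            push_cast; push_cast at h1; linarith
          exact (mul_eq_zero.1 this).resolve_left hL.ne'
        have := (hindp _ _ h4).1
        simpa [ha] using this
      have v1 : Van (gp γ g) (gp γ g') 1 → g' 2 = 0 ∧ g' 3 = 0 := by
        rintro ⟨-, h1⟩
        rw [r1'] at h1
        apply hinde
        have : L * ((g' 2 : ℝ) * s + (g' 3 : ℝ) * E) = 0 := by linarith
        exact (mul_eq_zero.1 this).resolve_left hL.ne'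
      have v2 : Van (gp γ g) (gp γ g') 2 → g' 2 = 0 := by
        rintro ⟨-, h1⟩
        rw [r2'] at h1
        simpa [hP, hL.ne'] using h1
      have v3 : Van (gp γ g) (gp γ g') 3 → g' 3 = 0 := by
        rintro ⟨-, h1⟩
        rw [r3'] at h1
        simpa [hs, hL.ne'] using h1
      rcases hb with ⟨h, h'⟩ | ⟨h, h'⟩ | ⟨h, h'⟩ | ⟨h, h'⟩ | ⟨h, h'⟩
      · exact ne_zero_hi hg' g0' g1' (k13' h') (k13 h')
      · exact ne_zero_hi hg' g0' g1' (v1 h).1 (v1 h).2
      · exact ne_zero_hi hg' g0' g1' (v2 h) (k13 h')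
      · exact ne_zero_hi hg' g0' g1' (k12 h' (v3 h)) (v3 h)
      · exact ne_zero_hi hg' g0' g1' (v2 h) (v3 h')
  · -- `πe` rational
    simp only [not_forall] at hirr
    obtain ⟨a, b, hab, hne⟩ := hirr
    have ha : a ≠ 0 := by
      rintro rfl
      apply hne
      simp at hab
      simp [hab]
    have hb : b ≠ 0 := by
      rintro rfl
      apply hne
      simp [hP, hE] at hab
      simp [hab]
    have habC : (a : ℂ) * (P * E) + 2 * b = 0 := by exact_mod_cast hab
    have c6 : IsAlgebraic ℚ (Complex.exp ((a : ℂ) * ((E : ℂ) * L))) := by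
      rw [Complex.exp_int_mul]
      rcases Int.le_total 0 a with h | h
      · lift a to ℕ using h
        rw [zpow_natCast]
        exact b6.pow _
      · obtain ⟨m, hm⟩ := Int.exists_eq_neg_ofNat h
        rw [hm, zpow_neg, zpow_natCast]
        exact (b6.pow _).inv
    have c7 : IsAlgebraic ℚ (Complex.exp ((-b : ℤ) * ((s : ℂ) * L))) := by
      rw [Complex.exp_int_mul]
      rcases Int.le_total 0 (-b) with h | h
      · obtain ⟨m, hm⟩ := Int.eq_ofNat_of_zero_le h
        rw [hm]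
        rw [zpow_natCast]
        exact b7.pow _
      · obtain ⟨m, hm⟩ := Int.exists_eq_neg_ofNat h
        rw [hm, zpow_neg, zpow_natCast]
        exact (b7.pow _).inv
    refine hM 3 3 ![false, true, true]
      ![![I * s, 0, I * P], ![0, s * L, P * L], ![0, (a : ℂ) * (E * L), (-b : ℤ) * (s * L)]]
      ![1, -1, 0] ![0, 0, 0] ![-P, -P, s] ?_ ?_ ?_ ?_ ?_ ?_ ?_
      60 59 32 26 58 (by norm_num) (by norm_num) (by norm_num) (by decide)
      (hF (I * s) (I * P) (s * L) (P * L) ((a : ℂ) * (E * L)) ((-b : ℤ) * (s * L))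
        (by simp [hs]) (by simp [hs, hL.ne']) (by simp [hP, hL.ne']) ?_ ?_)
    · intro h
      have := congrFun h 2
      simp [hs] at this
    · intro k
      fin_cases k
      · simp [Fin.sum_univ_three]; ring
      · simp [Fin.sum_univ_three]; ring
      · simp [Fin.sum_univ_three]
        linear_combination (-(L : ℂ)) * habC + (-(b : ℂ) * L) * hs2C
    · simp [Fin.sum_univ_three]
    · simp [Fin.sum_univ_three]
    · intro k i
      fin_cases k <;> fin_cases i
      · exact alg_I.mul as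
      · exact alg_exp_zero
      · exact bI
      · exact isAlgebraic_zero
      · exact b7
      · exact b4
      · exact isAlgebraic_zero
      · exact c6
      · exact c7
    · intro i
      fin_cases i
      · exact isAlgebraic_one
      · exact isAlgebraic_one.neg
      · exact isAlgebraic_zero
    · intro i
      fin_cases i <;> exact isAlgebraic_zero
    · intro x y h
      simp at h
      have h4 : (x : ℝ) * s + (y : ℝ) * P = 0 := by
        have : L * ((x : ℝ) * s + (y : ℝ) * P) = 0 := by linarith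
        exact (mul_eq_zero.1 this).resolve_left hL.ne'
      exact hindp _ _ h4
    · intro x y h
      simp at h
      have h4 : ((-(y * b) : ℤ) : ℝ) * s + (x : ℝ) * P = 0 := by
        have : L * (((-(y * b) : ℤ) : ℝ) * s + (x : ℝ) * P) = 0 := by push_cast; linarith
        exact (mul_eq_zero.1 this).resolve_left hL.ne'
      have := hindp _ _ h4
      exact ⟨this.2, by simpa [hb] using this.1⟩

end Trs.H48
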