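import Pool.Agent.Helper48.Trs.Gen

/-! Shape condition on `G_a × G_m^3`. -/

namespace Trs.H48

open MvPolynomial

theorem dr_X {n : ℕ} (tor : Fin n → Bool) (w : Fin n → ℂ) (i : Fin n) :
    dr tor w (X i) = if tor i then C (w i) * X i else C (w i) :=
  mkDerivation_X _ _ _

/-- types of the coordinates -/
def T4 : Fin 4 → Bool := ![false, true, true, true]
/-- first derivation -/
def W1 : Fin 4 → ℂ := ![1, -1, 0, 0]
/-- second derivation -/
def W2 (c1 c2 : ℂ) : Fin 4 → ℂ := ![0, 0, c1, c2]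

variable {p : Ideal (Rg 4)} {c1 c2 : ℂ}

theorem notMem_of_ev {f : Rg 4} (hker : p ≤ RingHom.ker (ev T4 0)) (h : ev T4 0 f ≠ 0) :
    f ∉ p := fun hf => h (by simpa using hker hf)

theorem ev0_X (i : Fin 4) : ev T4 0 (X i) = if T4 i then 1 else 0 := by
  simp [ev]

theorem wt2_A (h0 : (X 0 : Rg 4) ∈ p) (hz : ¬ Dst T4 (W2 c1 c2) p) :
    Wt T4 W1 (W2 c1 c2) p 2 := by
  simp only [Dst, not_forall] at hz
  obtain ⟨z', hz', hd⟩ := hz
  refine ⟨X 0, h0, z', hz', ?_⟩
  have e1 : dr T4 W1 (X 0) = 1 := by simp [dr_X, T4, W1]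
  have e2 : dr T4 (W2 c1 c2) (X 0) = 0 := by simp [dr_X, T4, W2]
  rw [e1, e2]
  simpa using hd

theorem wt2_XY (hker : p ≤ RingHom.ker (ev T4 0)) (h1 : (X 1 - 1 : Rg 4) ∈ p) {i : Fin 4}
    {c : ℂ} (hc : c ≠ 0) (hi : T4 i = true) (hW : W2 c1 c2 i = c) (hi' : (X i - 1 : Rg 4) ∈ p) :
    Wt T4 W1 (W2 c1 c2) p 2 := by
  refine ⟨X 1 - 1, h1, X i - 1, hi', ?_⟩
  have e1 : dr T4 W1 (X 1 - 1) = C (-1) * X 1 := by simp [dr_X, T4, W1]
  have e2 : dr T4 (W2 c1 c2) (X 1 - 1) = 0 := by simp [dr_X, T4, W2]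
  have e3 : dr T4 (W2 c1 c2) (X i - 1) = C c * X i := by simp [dr_X, hi, hW]
  rw [e1, e2, e3]
  refine notMem_of_ev hker ?_
  simp only [map_sub, map_mul, ev0_X, hi]
  simp [ev, T4, hc]

theorem wt2_AY (hker : p ≤ RingHom.ker (ev T4 0)) (h1 : (X 0 : Rg 4) ∈ p) {i : Fin 4}
    {c : ℂ} (hc : c ≠ 0) (hi : T4 i = true) (hW : W2 c1 c2 i = c) (hi' : (X i - 1 : Rg 4) ∈ p) :
    Wt T4 W1 (W2 c1 c2) p 2 := by
  refine wt2_A h1 fun hD => ?_
  have e3 : dr T4 (W2 c1 c2) (X i - 1) = C c * X i := by simp [dr_X, hi, hW]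
  have := hD _ hi'
  rw [e3] at this
  refine notMem_of_ev hker ?_ this
  simp only [map_mul, ev0_X, hi]
  simp [ev, hc]

/-- `∂₂` stable -/
theorem F1 (hTor : S_Tor) (hp : p.IsPrime) (hker : p ≤ RingHom.ker (ev T4 0))
    (hc : ∀ a b : ℤ, c1 * a + c2 * b = 0 → a = 0 ∧ b = 0) (hD : Dst T4 (W2 c1 c2) p)
    {I : Finset (Fin 4)} (hI : Disjoint I {2, 3}) (h : Ind p I) : Ind p (I ∪ {2, 3}) := by
  refine hTor 4 T4 p hp hker (W2 c1 c2) hD {2, 3} (by simp [T4]) ?_ ?_ I hI h
  · intro j hj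
    fin_cases j <;> simp_all [W2]
  · intro g hg
    have : c1 * (g 2 : ℂ) + c2 * (g 3 : ℂ) = 0 := by
      rw [← hg, Finset.sum_pair (by decide)]
      simp [W2]
      ring
    obtain ⟨h2, h3⟩ := hc _ _ this
    simp [h2, h3]

/-- `∂₁` stable -/
theorem F2 (hJ : S_JorD) (hDel : S_Del) (hTor : S_Tor) (hp : p.IsPrime)
    (hker : p ≤ RingHom.ker (ev T4 0)) (hD : Dst T4 W1 p) {I : Finset (Fin 4)} (h : Ind p I) :
    (0 ∉ I → Ind p (insert 0 I)) ∧ (1 ∉ I → Ind p (I ∪ {1})) := by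
  obtain ⟨ha, hm⟩ := hJ 4 T4 p W1 hD
  constructor
  · intro h0
    refine hDel 4 T4 p _ ha (fun j hj => by simp [addPart, hj]) 0 rfl (by simp [addPart, T4, W1]) I
      ?_ h
    intro j hj
    have : j ≠ 0 := fun e => h0 (e ▸ hj)
    fin_cases j <;> simp_all [addPart, T4]
  · intro h1
    refine hTor 4 T4 p hp hker _ hm {1} (by simp [T4]) ?_ ?_ I (by simpa using h1) h
    · intro j hj
      fin_cases j <;> simp_all [mulPart, T4, W1]
    · intro g hg
      simp [mulPart, T4, W1] at hg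
      simp [hg]

theorem F6 (hJ : S_JorT) (hDel : S_Del) {v : Fin 4 → ℂ} (hv : Stb T4 p v) (h0 : v 0 ≠ 0)
    {I : Finset (Fin 4)} (hI : 0 ∉ I) (h : Ind p I) : Ind p (insert 0 I) := by
  obtain ⟨ha, -⟩ := hJ 4 T4 p v hv
  refine hDel 4 T4 p _ ha (fun j hj => by simp [addPart, hj]) 0 rfl (by simpa [addPart, T4]) I ?_ h
  intro j hj
  have : j ≠ 0 := fun e => hI (e ▸ hj)
  fin_cases j <;> simp_all [addPart, T4]

theorem sum_ex : ∀ I : Finset (Fin 4),
    ∑ i ∈ Iᶜ, ex T4 59 41 i = 41 * (4 - I.card) + (if 0 ∈ I then 0 else 18) := by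
  decide

theorem bad_of {P1 P2 P3 R12 R13 R23 V1 V2 V3 : Prop} (p12 : P1 ∨ P2 ∨ R12)
    (p13 : P1 ∨ P3 ∨ R13) (p23 : P2 ∨ P3 ∨ R23) (n12 : P1 → P2 → False)
    (n13 : P1 → P3 → False) (v1 : P1 → V1) (v2 : P2 → V2) (v3 : P3 → V3) :
    (R12 ∧ R13) ∨ (V1 ∧ R23) ∨ (V2 ∧ R13) ∨ (V3 ∧ R12) ∨ (V2 ∧ V3) := by
  tauto

theorem shAB (hJT : S_JorT) (hJD : S_JorD) (hA1 : S_Alg1) (hDel : S_Del) (hTor : S_Tor)
    (hPair : S_Pair) (hAP : S_AddPair) (hT : S_Tdim) : S_ShAB := by
  intro γ c1 c2 hc g01 g11 g20 g30 g23 g32 hα hre2 hre3 hX hbad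
  change Shape T4 γ W1 (W2 c1 c2) 59 41 17 58
  intro p hp hp0 hker
  have hpt := hp.ne_top
  have hc1 : c1 ≠ 0 := fun h => by simpa using (hc 1 0 (by simp [h])).1
  have hc2 : c2 ≠ 0 := fun h => by simpa using (hc 0 1 (by simp [h])).2
  obtain ⟨B, -, hB⟩ := exists_bas (ind_empty hpt)
  have hle : B.card ≤ 3 := by
    by_contra h
    have h4 : B.card = Fintype.card (Fin 4) := by
      have := Finset.card_le_univ B
      simp only [Fintype.card_fin] at this ⊢
      omega
    have := Finset.eq_univ_of_card B h4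
    exact not_ind_univ hp0 (this ▸ hB.1)
  have hcard : ∀ J : Finset (Fin 4), Ind p J → J.card ≤ B.card :=
    fun J hJ => ind_card_le hT hp hB hJ
  have hbas : ∀ J : Finset (Fin 4), Ind p J → J.card = B.card → Bas p J :=
    fun J hJ h => bas_of_card hT hp hB hJ h
  have A0 : ¬ Ind p {0} → (X 0 : Rg 4) ∈ p := fun h => by
    simpa [T4] using hA1 4 T4 p hp hker 0 h
  have A1 : ∀ i, T4 i = true → ¬ Ind p {i} → (X i - 1 : Rg 4) ∈ p := fun i hi h => by
    simpa [hi] using hA1 4 T4 p hp hker i h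
  have hI0 := ind_empty hpt
  have hW1 : Wt T4 W1 (W2 c1 c2) p 1 := by
    by_contra h
    simp only [Wt, not_exists, not_and, not_or, not_not] at h
    have hD1 : Dst T4 W1 p := fun z hz => (h z hz).1
    have hD2 : Dst T4 (W2 c1 c2) p := fun z hz => (h z hz).2
    have i1 := F1 hTor hp hker hc hD2 (by simp) hI0
    have i2 := (F2 hJD hDel hTor hp hker hD1 i1).1 (by decide)
    have i3 := (F2 hJD hDel hTor hp hker hD1 i2).2 (by decide)
    have := hcard _ i3
    have e : (insert (0 : Fin 4) (∅ ∪ {2, 3}) ∪ {1} : Finset (Fin 4)).card = 4 := by decide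
    omega
  have v0 : ∀ g : Fin 4 → ℤ, gp γ g 0 = g 0 * γ 0 0 + g 1 * γ 1 0 := fun g => by
    rw [gp_apply, Fin.sum_univ_four, g20, g30]; ring
  have v1 : ∀ g : Fin 4 → ℤ, gp γ g 1 = g 2 * γ 2 1 + g 3 * γ 3 1 := fun g => by
    rw [gp_apply, Fin.sum_univ_four, g01, g11]; ring
  have v2 : ∀ g : Fin 4 → ℤ, g 0 = 0 → g 1 = 0 → gp γ g 2 = g 2 * γ 2 2 := fun g h0 h1 => by
    rw [gp_apply, Fin.sum_univ_four, g32, h0, h1]; push_cast; ring
  have v3 : ∀ g : Fin 4 → ℤ, g 0 = 0 → g 1 = 0 → gp γ g 3 = g 3 * γ 3 3 := fun g h0 h1 => by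
    rw [gp_apply, Fin.sum_univ_four, g23, h0, h1]; push_cast; ring
  have α0 : ∀ g : Fin 4 → ℤ, gp γ g 0 = 0 → g 0 = 0 ∧ g 1 = 0 := fun g h =>
    hα _ _ (by rw [← v0]; exact h)
  have L2 : ∀ (g : Fin 4 → ℤ) (b : ℤ), b ≠ 0 → g 0 = 0 → g 1 = 0 →
      Complex.exp (b * gp γ g 2) = 1 → g 2 = 0 := by
    intro g b hb h0 h1 he
    have := exp_eq_one_re he
    rw [v2 g h0 h1] at this
    have e : ((b : ℂ) * ((g 2 : ℂ) * γ 2 2)).re = b * (g 2 * (γ 2 2).re) := by simp
    rw [e] at this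
    simpa [hb, hre2] using this
  have L3 : ∀ (g : Fin 4 → ℤ) (b : ℤ), b ≠ 0 → g 0 = 0 → g 1 = 0 →
      Complex.exp (b * gp γ g 3) = 1 → g 3 = 0 := by
    intro g b hb h0 h1 he
    have := exp_eq_one_re he
    rw [v3 g h0 h1] at this
    have e : ((b : ℂ) * ((g 3 : ℂ) * γ 3 3)).re = b * (g 3 * (γ 3 3).re) := by simp
    rw [e] at this
    simpa [hb, hre3] using this
  have fin4 : ∀ g : Fin 4 → ℤ, g 0 = 0 → g 1 = 0 → g 2 = 0 → g 3 = 0 → g = 0 := by
    intro g h0 h1 h2 h3
    funext i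
    fin_cases i <;> simp [h0, h1, h2, h3]
  have w2XY2 : (X 1 - 1 : Rg 4) ∈ p → (X 2 - 1 : Rg 4) ∈ p → Wt T4 W1 (W2 c1 c2) p 2 :=
    fun h h' => wt2_XY hker h hc1 rfl rfl h'
  have w2XY3 : (X 1 - 1 : Rg 4) ∈ p → (X 3 - 1 : Rg 4) ∈ p → Wt T4 W1 (W2 c1 c2) p 2 :=
    fun h h' => wt2_XY hker h hc2 rfl rfl h'
  by_cases h20 : Ind p {0}
  · -- additive coordinate independent
    have hcard1 := hcard _ h20
    rw [Finset.card_singleton] at hcard1
    by_cases hr1 : B.card = 1
    · -- r = 1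
      have hb0 : Bas p {0} := hbas _ h20 (by rw [hr1]; rfl)
      have ap : ∀ j, T4 j = true → ∃ b : ℤ, b ≠ 0 ∧
          ∀ v, v 0 = 0 → Stb T4 p v → Complex.exp (b * v j) = 1 := by
        intro j hj
        refine hAP 4 T4 p hp hker 0 j rfl hj h20 fun hind => ?_
        have := hcard _ hind
        have hne : (0 : Fin 4) ≠ j := by rintro rfl; simp [T4] at hj
        rw [Finset.card_pair hne, hr1] at this
        omega
      obtain ⟨b2, hb2, hv2⟩ := ap 2 rfl
      obtain ⟨b3, hb3, hv3⟩ := ap 3 rfl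
      by_cases hw : Wt T4 W1 (W2 c1 c2) p 2
      · refine ⟨{0}, {2, 3}, 2, hb0, ?_, hw, le_rfl, ?_⟩
        · intro g hg hS
          have h0 : g 0 = 0 := hg 0 (by decide)
          have h1 : g 1 = 0 := hg 1 (by decide)
          have hz : gp γ g 0 = 0 := by rw [v0, h0, h1]; simp
          exact fin4 g h0 h1 (L2 g b2 hb2 h0 h1 (hv2 _ hz hS)) (L3 g b3 hb3 h0 h1 (hv3 _ hz hS))
        · rw [sum_ex]; decide
      · refine ⟨{0}, Finset.univ, 1, hb0, ?_, hW1, by norm_num, ?_⟩
        · intro g _ hS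
          have hz : gp γ g 0 = 0 := by
            by_contra hne
            have key : ∀ i, T4 i = true → ¬ Ind p {i} := by
              intro i hi hind
              have hi0 : (0 : Fin 4) ≠ i := by rintro rfl; simp [T4] at hi
              have := hcard _ (F6 hJT hDel hS hne (by simpa using hi0) hind)
              rw [Finset.card_insert_of_notMem (by simpa using hi0), hr1] at this
              simp at this
            exact hw (w2XY2 (A1 1 rfl (key 1 rfl)) (A1 2 rfl (key 2 rfl)))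
          obtain ⟨h0, h1⟩ := α0 g hz
          exact fin4 g h0 h1 (L2 g b2 hb2 h0 h1 (hv2 _ hz hS)) (L3 g b3 hb3 h0 h1 (hv3 _ hz hS))
        · rw [sum_ex]; decide
    by_cases hr2 : B.card = 2
    · by_cases hw : Wt T4 W1 (W2 c1 c2) p 2
      · refine ⟨B, ∅, 2, hB, ?_, hw, le_rfl, ?_⟩
        · intro g hg _
          funext i
          exact hg i (by simp)
        · rw [sum_ex, hr2]; split_ifs <;> simp
      · obtain ⟨I, hI, hIB⟩ := exists_bas h20
        have hIc : I.card = 2 := by rw [bas_card hT hp hIB hB, hr2]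
        have h0I : (0 : Fin 4) ∈ I := hI (by simp)
        by_cases hF1 : Free T4 γ p {0, 1}
        · refine ⟨I, {0, 1}, 1, hIB, hF1, hW1, by norm_num, ?_⟩
          rw [sum_ex, hIc, if_pos h0I]; decide
        by_cases hF2 : Free T4 γ p {2, 3}
        · refine ⟨I, {2, 3}, 1, hIB, hF2, hW1, by norm_num, ?_⟩
          rw [sum_ex, hIc, if_pos h0I]; decide
        exfalso
        simp only [Free, not_forall] at hF1 hF2
        obtain ⟨g, hg, hS, hne⟩ := hF1
        obtain ⟨g', hg', hS', hne'⟩ := hF2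
        have gg2 : g 2 = 0 := hg 2 (by decide)
        have gg3 : g 3 = 0 := hg 3 (by decide)
        have gg0' : g' 0 = 0 := hg' 0 (by decide)
        have gg1' : g' 1 = 0 := hg' 1 (by decide)
        refine hbad g g' hne gg2 gg3 hne' gg0' gg1' ?_
        have hz : gp γ g 0 ≠ 0 := by
          intro hz
          obtain ⟨h0, h1⟩ := α0 g hz
          exact hne (fin4 g h0 h1 gg2 gg3)
        have key : ∀ i j, i ≠ j → T4 i = true → T4 j = true → ¬ Ind p {i, j} := by
          intro i j hij hi hj hind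
          have hi0 : (0 : Fin 4) ≠ i := by rintro rfl; simp [T4] at hi
          have hj0 : (0 : Fin 4) ≠ j := by rintro rfl; simp [T4] at hj
          have hnm : (0 : Fin 4) ∉ ({i, j} : Finset (Fin 4)) := by simp [hi0, hj0]
          have := hcard _ (F6 hJT hDel hS hz hnm hind)
          rw [Finset.card_insert_of_notMem hnm, Finset.card_pair hij, hr2] at this
          omega
        have pr : ∀ i j, i ≠ j → T4 i = true → T4 j = true →
            (X i - 1 : Rg 4) ∈ p ∨ (X j - 1 : Rg 4) ∈ p ∨ Rel (gp γ g) (gp γ g') i j := by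
          intro i j hij hi hj
          rcases hPair 4 T4 p hp hker i j hij hi hj (key i j hij hi hj) with h | h | h
          · exact Or.inl h
          · exact Or.inr (Or.inl h)
          · right; right
            obtain ⟨a, b, ha, hb, hv⟩ := h
            refine ⟨a, b, ha, hb, ?_, ?_⟩
            · have := exp_eq_one_re (hv _ hS)
              simpa using this
            · have := exp_eq_one_re (hv _ hS')
              simpa using this
        have va : ∀ i, T4 i = true → (X i - 1 : Rg 4) ∈ p → Van (gp γ g) (gp γ g') i :=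
          fun i hi h => ⟨exp_eq_one_re (stb_mul hpt hi hS h), exp_eq_one_re (stb_mul hpt hi hS' h)⟩
        have p12 := pr 1 2 (by decide) rfl rfl
        have p13 := pr 1 3 (by decide) rfl rfl
        have p23 := pr 2 3 (by decide) rfl rfl
        exact bad_of p12 p13 p23 (fun h h' => hw (w2XY2 h h')) (fun h h' => hw (w2XY3 h h'))
          (va 1 rfl) (va 2 rfl) (va 3 rfl)
    · -- r = 3
      have hr3 : B.card = 3 := by omega
      obtain ⟨I, hI, hIB⟩ := exists_bas h20
      have hIc : I.card = 3 := by rw [bas_card hT hp hIB hB, hr3]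
      have h0I : (0 : Fin 4) ∈ I := hI (by simp)
      refine ⟨I, ∅, 1, hIB, ?_, hW1, by norm_num, ?_⟩
      · intro g hg _
        funext i
        exact hg i (by simp)
      · rw [sum_ex, hIc, if_pos h0I]; decide
  · -- additive coordinate in p
    have hx0 := A0 h20
    have hz0 : ∀ g : Fin 4 → ℤ, Stb T4 p (gp γ g) → g 0 = 0 ∧ g 1 = 0 := fun g hS =>
      α0 g (stb_add hpt rfl hS hx0)
    have hnot0 : ∀ I : Finset (Fin 4), Ind p I → (0 : Fin 4) ∉ I := fun I hI h =>
      h20 (ind_mono (by simpa using h) hI)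
    by_cases hr0 : B.card = 0
    · have hB0 : B = ∅ := Finset.card_eq_zero.1 hr0
      have nI : ∀ i, ¬ Ind p {i} := fun i hi => by
        have := hcard _ hi
        rw [hr0, Finset.card_singleton] at this
        omega
      have hx1 := A1 1 rfl (nI 1)
      have hx2 := A1 2 rfl (nI 2)
      have hx3 := A1 3 rfl (nI 3)
      refine ⟨B, Finset.univ, 2, hB, ?_, w2XY2 hx1 hx2, le_rfl, ?_⟩
      · intro g _ hS
        obtain ⟨h0, h1⟩ := hz0 g hS
        refine fin4 g h0 h1 (L2 g 1 one_ne_zero h0 h1 ?_) (L3 g 1 one_ne_zero h0 h1 ?_)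
        · simpa using stb_mul hpt rfl hS hx2
        · simpa using stb_mul hpt rfl hS hx3
      · rw [hB0]; decide
    by_cases hr1 : B.card = 1
    · have hw : Wt T4 W1 (W2 c1 c2) p 2 := by
        refine wt2_A hx0 fun hD => ?_
        have := hcard _ (F1 hTor hp hker hc hD (by simp) hI0)
        have e : (∅ ∪ {2, 3} : Finset (Fin 4)).card = 2 := by decide
        omega
      refine ⟨B, {0, 1}, 2, hB, ?_, hw, le_rfl, ?_⟩
      · intro g hg hS
        obtain ⟨h0, h1⟩ := hz0 g hS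
        exact fin4 g h0 h1 (hg 2 (by decide)) (hg 3 (by decide))
      · rw [sum_ex, hr1, if_neg (hnot0 B hB.1)]; decide
    by_cases hr2 : B.card = 2
    · by_cases hw : Wt T4 W1 (W2 c1 c2) p 2
      · refine ⟨B, ∅, 2, hB, ?_, hw, le_rfl, ?_⟩
        · intro g hg _
          funext i
          exact hg i (by simp)
        · rw [sum_ex, hr2]; split_ifs <;> simp
      · have hD : Dst T4 (W2 c1 c2) p := by
          by_contra h
          exact hw (wt2_A hx0 h)
        have hx1 : (X 1 - 1 : Rg 4) ∈ p := by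
          refine A1 1 rfl fun hind => ?_
          have := hcard _ (F1 hTor hp hker hc hD (by decide) hind)
          have e : ({1} ∪ {2, 3} : Finset (Fin 4)).card = 3 := by decide
          omega
        have hre : ∀ g : Fin 4 → ℤ, Stb T4 p (gp γ g) →
            g 2 * (γ 2 1).re + g 3 * (γ 3 1).re = 0 := by
          intro g hS
          have := exp_eq_one_re (stb_mul hpt rfl hS hx1)
          rw [v1] at this
          simpa using this
        rcases hX with h | h
        · refine ⟨B, {0, 1, 2}, 1, hB, ?_, hW1, by norm_num, ?_⟩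
          · intro g hg hS
            obtain ⟨h0, h1⟩ := hz0 g hS
            have h3 : g 3 = 0 := hg 3 (by decide)
            have := hre g hS
            rw [h3] at this
            have h2 : g 2 = 0 := by simpa [h] using this
            exact fin4 g h0 h1 h2 h3
          · rw [sum_ex, hr2, if_neg (hnot0 B hB.1)]; decide
        · refine ⟨B, {0, 1, 3}, 1, hB, ?_, hW1, by norm_num, ?_⟩
          · intro g hg hS
            obtain ⟨h0, h1⟩ := hz0 g hS
            have h2 : g 2 = 0 := hg 2 (by decide)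
            have := hre g hS
            rw [h2] at this
            have h3 : g 3 = 0 := by simpa [h] using this
            exact fin4 g h0 h1 h2 h3
          · rw [sum_ex, hr2, if_neg (hnot0 B hB.1)]; decide
    · have hr3 : B.card = 3 := by omega
      refine ⟨B, {0}, 1, hB, ?_, hW1, by norm_num, ?_⟩
      · intro g hg hS
        obtain ⟨h0, h1⟩ := hz0 g hS
        exact fin4 g h0 h1 (hg 2 (by decide)) (hg 3 (by decide))
      · rw [sum_ex, hr3, if_neg (hnot0 B hB.1)]; decide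

end Trs.H48
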