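import Pool.Agent.Helper17.Trs.Defs

/-! General facts on `Ind`, `Bas`, `Stb`, `Wt`. -/

namespace Trs.H48

open MvPolynomial

variable {n : ℕ} {p : Ideal (Rg n)}

theorem ind_mono {I J : Finset (Fin n)} (h : J ⊆ I) (hI : Ind p I) : Ind p J :=
  fun f hf hp => hI f (hf.trans h) hp

theorem ind_empty (hp : p ≠ ⊤) : Ind p ∅ := by
  intro f hf hfp
  have h0 : f.vars = ∅ := Finset.subset_empty.1 hf
  rw [vars_eq_empty_iff_eq_C] at h0
  by_contra hne
  have hc : f.coeff 0 ≠ 0 := by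
    intro h
    rw [h, C_0] at h0
    exact hne h0
  apply hp
  rw [Ideal.eq_top_iff_one]
  have : (C (f.coeff 0)⁻¹ : Rg n) * f ∈ p := p.mul_mem_left _ hfp
  rwa [h0, ← C_mul, coeff_C, if_pos rfl, inv_mul_cancel₀ hc, C_1] at this

theorem exists_bas {J : Finset (Fin n)} (hJ : Ind p J) : ∃ I, J ⊆ I ∧ Bas p I := by
  classical
  obtain ⟨I, hI, hmax⟩ := ((Finset.univ : Finset (Finset (Fin n))).filter
    (fun I => J ⊆ I ∧ Ind p I)).exists_max_image Finset.card ⟨J, by simp [hJ]⟩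
  simp only [Finset.mem_filter, Finset.mem_univ, true_and] at hI hmax
  refine ⟨I, hI.1, hI.2, fun i hi hind => ?_⟩
  have := hmax (insert i I) ⟨hI.1.trans (Finset.subset_insert _ _), hind⟩
  rw [Finset.card_insert_of_notMem hi] at this
  omega

theorem not_ind_univ (hp : p ≠ ⊥) : ¬ Ind p Finset.univ := by
  intro h
  obtain ⟨f, hf, hne⟩ := Submodule.exists_mem_ne_zero_of_ne_bot hp
  exact hne (h f (Finset.subset_univ _) hf)

theorem bas_card (hT : S_Tdim) (hp : p.IsPrime) {I J : Finset (Fin n)} (hI : Bas p I)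
    (hJ : Bas p J) : I.card = J.card := by
  have h1 := hT n p hp I hI
  have h2 := hT n p hp J hJ
  have h3 : p.height ≠ ⊤ := by
    intro h
    rw [h, top_add] at h1
    exact ENat.natCast_ne_top n h1.symm
  obtain ⟨a, ha⟩ := ENat.ne_top_iff_exists.1 h3
  rw [← ha] at h1 h2
  have h1' : a + I.card = n := by exact_mod_cast h1
  have h2' : a + J.card = n := by exact_mod_cast h2
  omega

theorem ind_card_le (hT : S_Tdim) (hp : p.IsPrime) {I J : Finset (Fin n)} (hI : Bas p I)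
    (hJ : Ind p J) : J.card ≤ I.card := by
  obtain ⟨K, hK, hB⟩ := exists_bas hJ
  rw [bas_card hT hp hI hB]
  exact Finset.card_le_card hK

theorem bas_of_card (hT : S_Tdim) (hp : p.IsPrime) {I J : Finset (Fin n)} (hI : Bas p I)
    (hJ : Ind p J) (h : J.card = I.card) : Bas p J := by
  refine ⟨hJ, fun i hi hind => ?_⟩
  have := ind_card_le hT hp hI hind
  rw [Finset.card_insert_of_notMem hi] at this
  omega

theorem exp_eq_one_re {z : ℂ} (h : Complex.exp z = 1) : z.re = 0 := by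
  have h1 : ‖Complex.exp z‖ = 1 := by rw [h]; simp
  rw [Complex.norm_exp] at h1
  exact Real.exp_eq_one_iff _ |>.1 h1

theorem C_mem {p : Ideal (Rg n)} (hp : p ≠ ⊤) {c : ℂ} (h : (C c : Rg n) ∈ p) : c = 0 := by
  by_contra hc
  apply hp
  rw [Ideal.eq_top_iff_one]
  have : (C c⁻¹ : Rg n) * C c ∈ p := p.mul_mem_left _ h
  rwa [← C_mul, inv_mul_cancel₀ hc, C_1] at this

theorem stb_add {tor : Fin n → Bool} {v : Fin n → ℂ} {i : Fin n} (hp : p ≠ ⊤)
    (hi : tor i = false) (h : Stb tor p v) (hx : (X i : Rg n) ∈ p) : v i = 0 := by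
  have h1 := (h _).1 hx
  simp only [tr, aeval_X, hi, Bool.false_eq_true, if_false] at h1
  have h2 := p.sub_mem h1 hx
  rw [add_sub_cancel_left] at h2
  exact C_mem hp h2

theorem stb_mul {tor : Fin n → Bool} {v : Fin n → ℂ} {i : Fin n} (hp : p ≠ ⊤)
    (hi : tor i = true) (h : Stb tor p v) (hx : (X i - 1 : Rg n) ∈ p) :
    Complex.exp (v i) = 1 := by
  have h1 := (h _).1 hx
  simp only [tr, map_sub, aeval_X, hi, if_true, map_one] at h1
  have h2 : (C (Complex.exp (v i)) * (X i - 1) : Rg n) ∈ p := p.mul_mem_left _ hx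
  have h3 := p.sub_mem h1 h2
  have h4 : (C (Complex.exp (v i) - 1) : Rg n) ∈ p := by
    have e : (C (Complex.exp (v i) - 1) : Rg n) =
      C (Complex.exp (v i)) * X i - 1 - C (Complex.exp (v i)) * (X i - 1) := by
      rw [C_sub, C_1]; ring
    rw [e]; exact h3
  have h5 := C_mem hp h4
  linear_combination h5

theorem gp_apply {m : ℕ} (γ : Fin m → Fin n → ℂ) (g : Fin m → ℤ) (i : Fin n) :
    gp γ g i = ∑ k, (g k : ℂ) * γ k i := by
  simp [gp, Finset.sum_apply]

end Trs.H48
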